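import Mathlib
import Pool.Agent.helper64.NQ.Spec

/-!
# RLU: the relation for subgroups of `A`
-/

set_option autoImplicit false

namespace Pool.Agent.NQ

open Pool.Agent.helper58.DC Pool.Agent.DI Pool.Agent.DR

theorem RLU_dfc {G : Type} [Group G] (p : ℕ) (C : Finset (Subgroup G)) (ψ : G → ℂ) (n : ℕ)
    (hn : ψ 1 = n) : Defect p (nrm C) ψ (dfc p (C, ψ)) := by
  have h1 : ⌊(ψ 1).re⌋₊ = n := by
    rw [hn, Complex.natCast_re, Nat.floor_natCast]
  refine ⟨n, hn, ?_⟩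
  show (padicValNat p (Nat.card (nrm C)) : ℤ) - padicValNat p ⌊(ψ 1).re⌋₊ = _
  rw [h1]

/-- A number which is `1` modulo `m` and `0` modulo `n`. -/
theorem RLU_k {Q : Type} [Group Q] {m n : ℕ} (h : m.Coprime n) :
    ∃ k : ℕ, (∀ t : Q, t ^ m = 1 → t ^ k = t) ∧ ∀ u : Q, u ^ n = 1 → u ^ k = 1 := by
  obtain ⟨k, hk1, hk2⟩ := Nat.chineseRemainder h 1 0
  refine ⟨k, fun t ht => ?_, fun u hu => ?_⟩
  · have h1 : k ≡ 1 [MOD orderOf t] := hk1.of_dvd (orderOf_dvd_of_pow_eq_one ht)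
    have h2 := pow_eq_pow_iff_modEq.2 h1
    rw [pow_one] at h2
    exact h2
  · have h1 : n ∣ k := (Nat.modEq_zero_iff_dvd).1 hk2
    obtain ⟨c, hc⟩ := h1
    rw [hc, pow_mul, hu, one_pow]

theorem RLU_alt {Q : Type} [Group Q] {V : Subgroup Q} {ω : Q → Q → ℂˣ} (h : IsAlt V ω) {m n : ℕ}
    (hmn : m.Coprime n) {t z : Q} (ht : t ∈ V) (hz : z ∈ V) (htm : t ^ m = 1) (hzn : z ^ n = 1) :
    ω t z = 1 := by
  have h1 : ∀ z ∈ V, ω 1 z = 1 := by
    intro z hz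
    have h2 := h.mul_left 1 V.one_mem 1 V.one_mem z hz
    rw [mul_one] at h2
    exact (left_eq_mul.1 h2)
  have h1' : ∀ z ∈ V, ω z 1 = 1 := by
    intro z hz
    have h2 := h.mul_right z hz 1 V.one_mem 1 V.one_mem
    rw [mul_one] at h2
    exact (left_eq_mul.1 h2)
  have hl : ∀ k : ℕ, ω (t ^ k) z = ω t z ^ k := by
    intro k
    induction k with
    | zero => rw [pow_zero, pow_zero, h1 z hz]
    | succ k ih => rw [pow_succ, h.mul_left _ (V.pow_mem ht k) _ ht _ hz, ih, pow_succ]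
  have hr : ∀ k : ℕ, ω t (z ^ k) = ω t z ^ k := by
    intro k
    induction k with
    | zero => rw [pow_zero, pow_zero, h1' t ht]
    | succ k ih => rw [pow_succ, h.mul_right _ ht _ (V.pow_mem hz k) _ hz, ih, pow_succ]
  have e1 : ω t z ^ m = 1 := by rw [← hl, htm, h1 z hz]
  have e2 : ω t z ^ n = 1 := by rw [← hr, hzn, h1' t ht]
  have e3 : orderOf (ω t z) ∣ 1 := by
    rw [← Nat.Coprime.gcd_eq_one hmn]
    exact Nat.dvd_gcd (orderOf_dvd_of_pow_eq_one e1) (orderOf_dvd_of_pow_eq_one e2)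
  rw [Nat.dvd_one] at e3
  exact orderOf_eq_one_iff.1 e3

theorem RLU_nor {A : Type} [Group A] (hc : ∀ a b : A, a * b = b * a) (H : Subgroup A) :
    H.Normal := by
  refine ⟨fun n hn g => ?_⟩
  rw [hc g n, mul_assoc, mul_inv_cancel, mul_one]
  exact hn

/-- The quotient `(T ⊔ U) / U` is isomorphic to `T`. -/
theorem RLU_iso {A : Type} [Group A] [Finite A] (T U : Subgroup A) [U.Normal]
    (h : (Nat.card T).Coprime (Nat.card U)) [(U.subgroupOf (T ⊔ U)).Normal] :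
    Nonempty ((T ⊔ U : Subgroup A) ⧸ U.subgroupOf (T ⊔ U) ≃* T) := by
  have e1 := QuotientGroup.quotientInfEquivProdNormalQuotient T U
  have hb : U.subgroupOf T = ⊥ := by
    rw [Subgroup.subgroupOf_eq_bot, disjoint_iff]
    exact (inf_comm U T).trans (disjoint_iff.1 (Subgroup.disjoint_of_coprime_natCard h))
  have e2 : T ⧸ U.subgroupOf T ≃* T ⧸ (⊥ : Subgroup T) := QuotientGroup.quotientMulEquivOfEq hb
  have e3 : T ⧸ (⊥ : Subgroup T) ≃* T := QuotientGroup.quotientBot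
  exact ⟨e1.symm.trans (e2.trans e3)⟩

/-- The image of the stabiliser for the restricted extension. -/
theorem RLU_map {G E A : Type} [Group G] [Group E] [Group A] (X : Extension G E A) (W : Subgroup A)
    (C : Finset (Subgroup G)) (ψ : G → ℂ) :
    ((resE X W).stab C ψ).map (resE X W).proj = ((X.stab C ψ).map X.proj).subgroupOf W := by
  ext w
  rw [Subgroup.mem_subgroupOf, Subgroup.mem_map, Subgroup.mem_map]
  constructor
  · rintro ⟨e, he, hw⟩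
    exact ⟨e.1, he, congrArg Subtype.val hw⟩
  · rintro ⟨e, he, hw⟩
    refine ⟨⟨e, ?_⟩, he, Subtype.ext hw⟩
    rw [Subgroup.mem_comap, hw]
    exact w.2

theorem RLU_sup {A : Type} [Group A] [Finite A] (hc : ∀ a b : A, a * b = b * a)
    (T U V : Subgroup A) (h : (Nat.card T).Coprime (Nat.card U)) :
    V.subgroupOf (T ⊔ U) ⊔ U.subgroupOf (T ⊔ U) = ⊤ ↔ T ≤ V := by
  have hU := RLU_nor hc U
  have hU' : (U.subgroupOf (T ⊔ U)).Normal := hU.subgroupOf _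
  have hpT : ∀ t ∈ T, t ^ Nat.card T = 1 := fun t ht => by
    have h1 := pow_card_eq_one' (x := (⟨t, ht⟩ : T))
    exact congrArg Subtype.val h1
  have hpU : ∀ t ∈ U, t ^ Nat.card U = 1 := fun t ht => by
    have h1 := pow_card_eq_one' (x := (⟨t, ht⟩ : U))
    exact congrArg Subtype.val h1
  obtain ⟨k, hk1, hk2⟩ := RLU_k (Q := A) h
  constructor
  · intro ht t htT
    have h1 : (⟨t, (le_sup_left : T ≤ T ⊔ U) htT⟩ : (T ⊔ U : Subgroup A)) ∈
        V.subgroupOf (T ⊔ U) ⊔ U.subgroupOf (T ⊔ U) := by rw [ht]; exact Subgroup.mem_top _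
    rw [Subgroup.mem_sup_of_normal_right] at h1
    obtain ⟨v, hv, u, hu, hvu⟩ := h1
    have h2 : (v : A) * (u : A) = t := congrArg Subtype.val hvu
    have h3 : t = (v : A) ^ k := by
      have h4 : ((v : A) * (u : A)) ^ k = (v : A) ^ k * (u : A) ^ k :=
        (show Commute (v : A) (u : A) from hc _ _).mul_pow k
      rw [h2, hk1 t (hpT t htT), hk2 (u : A) (hpU (u : A) (Subgroup.mem_subgroupOf.1 hu)), mul_one] at h4
      exact h4
    rw [h3]
    exact V.pow_mem hv k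
  · intro hTV
    rw [eq_top_iff]
    rintro ⟨w, hw⟩ -
    rw [Subgroup.mem_sup_of_normal_right]
    have hw' := hw
    rw [Subgroup.mem_sup_of_normal_right] at hw'
    obtain ⟨t, ht, u, hu, htu⟩ := hw'
    exact ⟨⟨t, (le_sup_left : T ≤ T ⊔ U) ht⟩, hTV ht, ⟨u, (le_sup_right : U ≤ T ⊔ U) hu⟩, hu,
      Subtype.ext htu⟩

/-- The contribution of a pair. -/
theorem RLU_term (hRES : RES_stmt) (hCNA : CNA_stmt) (hCN0 : CN0_stmt) (hOMA : OMA_stmt)
    (hRST : RST_stmt) (hECD : ECD_stmt) (hB13 : B13_stmt)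
    (hB2 : Pool.Agent.DI.B2_stmt) (G E A : Type) [Group G] [Group E] [Group A] [Finite G] [Finite E] [Finite A]
    (X : Extension G E A) (p : ℕ) [Fact p.Prime] (M : Ideal (integralClosure ℤ ℂ)) (χ : G → ℂ)
    (hc : ∀ a b : A, a * b = b * a) (hpA : ¬ p ∣ Nat.card A) (T U : Subgroup A)
    (h : (Nat.card T).Coprime (Nat.card U)) (D : ℤ) (x : Finset (Subgroup G) × (G → ℂ))
    (α : A → A → ℂˣ) (hα : Asc (X.stab x.1 x.2) X.proj (ext0 X.inc x.2) α) (hx : IsPair p M χ x) :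
    ((relT (resE X (T ⊔ U)) p (U.subgroupOf (T ⊔ U)) x.1 x.2 D : ℤ) : ℂ) =
      (Nat.card (nrm x.1) : ℂ) * if dfc p x = D then KQ (U ⊓ Vx X x) (om α) else 0 := by
  classical
  obtain ⟨C, ψ⟩ := x
  obtain ⟨hrad, hψ, hind⟩ := hx
  dsimp only at hrad hψ hind hα ⊢
  have hCne : C.Nonempty := by
    obtain ⟨P, hP, -⟩ := hrad.radical
    exact ⟨P, hP⟩
  obtain ⟨hker, hnrm, hst⟩ := hRST G E A X C hrad.chain hCne
  obtain ⟨hst1, hst2, hst3⟩ := hst ψ hψ
  obtain ⟨hb1, hb2, hb3, hb4, hb5, hb6⟩ := hB13 G E p X.inc X.inc_injective (nrm C)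
  set W : Subgroup A := T ⊔ U with hW
  set V : Subgroup A := (X.stab C ψ).map X.proj with hV
  have hUW : U ≤ W := le_sup_right
  have hU := RLU_nor hc U
  -- the group `S`
  set S : Subgroup E := X.stab C ψ ⊓ W.comap X.proj with hS
  have hkW : X.proj.ker ≤ W.comap X.proj := by
    intro e he
    rw [Subgroup.mem_comap, (MonoidHom.mem_ker).1 he]
    exact W.one_mem
  have hSk : S ⊓ X.proj.ker = X.stab C ψ ⊓ X.proj.ker := by
    rw [hS, inf_assoc, inf_eq_right.2 hkW]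
  have hSk2 : S ⊓ X.proj.ker = (nrm C).map X.inc := by rw [hSk, hst2]
  have hSU : S ⊓ U.comap X.proj = X.stab C ψ ⊓ U.comap X.proj := by
    rw [hS, inf_assoc, inf_eq_right.2 (Subgroup.comap_mono hUW)]
  have hSm : S.map X.proj = V ⊓ W := by
    ext a
    rw [Subgroup.mem_map, Subgroup.mem_inf, hV, Subgroup.mem_map]
    constructor
    · rintro ⟨e, ⟨he1, he2⟩, rfl⟩
      exact ⟨⟨e, he1, rfl⟩, he2⟩
    · rintro ⟨⟨e, he1, rfl⟩, he2⟩
      exact ⟨e, ⟨he1, he2⟩, rfl⟩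
  have hψE : ext0 X.inc ψ ∈ IrrOn (S ⊓ X.proj.ker) := by
    rw [hSk2]
    exact (hb2 ψ).1 hψ
  have hinv : ∀ s ∈ S, funMap (MulAut.conj s) (ext0 X.inc ψ) = ext0 X.inc ψ :=
    fun s hs => hst3 s hs.1
  have hAsc : Asc S X.proj (ext0 X.inc ψ) α := by
    obtain ⟨Vs, i1, i2, i3, Tr, hT⟩ := hα
    refine ⟨Vs, i1, i2, i3, Tr, ⟨hT.one, fun s hs s' hs' => hT.mul s hs.1 s' hs'.1, fun g hg => ?_⟩⟩
    exact hT.tr g (hSk ▸ hg)
  have hcomm : ∀ x ∈ S.map X.proj, ∀ y ∈ S.map X.proj, x * y = y * x := fun x _ y _ => hc x y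
  have hAlt : IsAlt (S.map X.proj) (om α) :=
    hOMA A (S.map X.proj) hcomm α (hCN0 E A X.proj S (ext0 X.inc ψ) hψE α hAsc)
  have hpT : ∀ t ∈ T, t ^ Nat.card T = 1 := fun t ht => by
    have h1 := pow_card_eq_one' (x := (⟨t, ht⟩ : T))
    exact congrArg Subtype.val h1
  have hpU : ∀ t ∈ U, t ^ Nat.card U = 1 := fun t ht => by
    have h1 := pow_card_eq_one' (x := (⟨t, ht⟩ : U))
    exact congrArg Subtype.val h1
  have hRd : ∀ z ∈ Rd (U ⊓ S.map X.proj) (om α), ∀ v ∈ S.map X.proj, om α v z = 1 := by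
    rintro z ⟨⟨hzU, hzS⟩, hz⟩ v hv
    have hvW : v ∈ W := (hSm ▸ hv : v ∈ V ⊓ W).2
    rw [hW, Subgroup.mem_sup_of_normal_right] at hvW
    obtain ⟨t, ht, u, hu, htu⟩ := hvW
    obtain ⟨k, hk1, hk2⟩ := RLU_k (Q := A) h
    have h3 : v ^ k = t := by
      rw [← htu, (show Commute t u from hc _ _).mul_pow k, hk1 t (hpT t ht), hk2 _ (hpU _ hu), mul_one]
    have htS : t ∈ S.map X.proj := h3 ▸ Subgroup.pow_mem _ hv k
    have huS : u ∈ S.map X.proj := by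
      have h4 : u = t⁻¹ * v := by rw [← htu, inv_mul_cancel_left]
      rw [h4]
      exact Subgroup.mul_mem _ (Subgroup.inv_mem _ htS) hv
    rw [← htu, hAlt.mul_left t htS u huS z hzS, hz u ⟨hu, huS⟩, mul_one]
    exact RLU_alt hAlt h htS hzS (hpT t ht) (hpU z hzU)
  have hpn : ¬ p ∣ Nat.card (U ⊓ S.map X.proj : Subgroup A) :=
    fun hd => hpA (hd.trans (Subgroup.card_subgroup_dvd_card _))
  obtain ⟨n, -, hn, -⟩ := ((hB2 G (nrm C)).2 ψ hψ).1
  have hdef : Defect p (S ⊓ X.proj.ker) (ext0 X.inc ψ) (dfc p (C, ψ)) := by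
    rw [hSk2]
    exact (hb5 ψ _).1 (RLU_dfc p C ψ n hn)
  have hcna := hCNA E A X.proj S (ext0 X.inc ψ) hψE hinv α hAsc hcomm U hU p hpn hRd
    (dfc p (C, ψ)) D hdef
  have hUS : U ⊓ S.map X.proj = U ⊓ V := by
    rw [hSm, ← inf_assoc, inf_eq_left.2 (inf_le_left.trans hUW)]
  rw [hUS, hSU, hSk] at hcna
  have hres := hRES G E A X p C ψ W U hUW D
  have hecd := hECD E A X.proj (X.stab C ψ) U
  have hcm : Nat.card ((nrm C).map X.inc) = Nat.card (nrm C) :=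
    Nat.card_congr (Subgroup.equivMapOfInjective (nrm C) X.inc X.inc_injective).toEquiv.symm
  rw [hst2, hcm, inf_comm (Subgroup.map X.proj (X.stab C ψ)) U] at hecd
  rw [hres, hecd]
  have hVx : Vx X (C, ψ) = V := rfl
  rw [hVx]
  rw [← hcna]
  push_cast
  ring

theorem RLU (hRES : RES_stmt) (hCNA : CNA_stmt) (hCN0 : CN0_stmt) (hOMA : OMA_stmt)
    (hRLBX : RLBX_stmt) (hRST : RST_stmt) (hECD : ECD_stmt) (hB13 : B13_stmt)
    (hB2 : Pool.Agent.DI.B2_stmt) : RLU_stmt := by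
  classical
  intro G E A _ _ _ _ _ _ X p _ M hM hpM hop χ hχ hst hc hpA 𝒳 hCl hXE T U hTU hInv D hD α hα
  have hU := RLU_nor hc U
  have hU' : (U.subgroupOf (T ⊔ U)).Normal := hU.subgroupOf _
  -- the relation of DR
  have hInv' : InvX p M 𝒳 ((T ⊔ U : Subgroup A) ⧸ U.subgroupOf (T ⊔ U)) := by
    obtain ⟨φ⟩ := RLU_iso T U hTU
    intro G' E' A' _ _ _ _ _ X' hX' hA' hO' χ' hχ' hpd d U'
    obtain ⟨ψ⟩ := hA'
    exact hInv G' E' A' X' hX' ⟨ψ.trans φ⟩ hO' χ' hχ' hpd d U'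
  have hpn : ¬ p ∣ Nat.card (U.subgroupOf (T ⊔ U)) := by
    intro hd
    refine hpA (hd.trans ?_)
    have h1 : Nat.card (U.subgroupOf (T ⊔ U)) = Nat.card U :=
      Nat.card_congr (Subgroup.subgroupOfEquivOfLe (le_sup_right : U ≤ T ⊔ U)).toEquiv
    rw [h1]
    exact Subgroup.card_subgroup_dvd_card U
  have hrel : Rel (resE X (T ⊔ U)) p M χ (U.subgroupOf (T ⊔ U)) D :=
    hRLBX G ((T ⊔ U).comap X.proj) (T ⊔ U : Subgroup A) (resE X (T ⊔ U)) p M hM hpM hop χ hχ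
      (fun e => hst e.1) 𝒳 (hCl.sub E _ hXE) (U.subgroupOf (T ⊔ U)) hpn hInv' D hD
  -- finiteness
  have hRfin : {C : Finset (Subgroup G) | IsRadical p C}.Finite := Set.toFinite _
  set R : Finset (Finset (Subgroup G)) := hRfin.toFinset with hR
  have hmem : ∀ C, C ∈ R ↔ IsRadical p C := fun C => by
    rw [hR, Set.Finite.mem_toFinset]; rfl
  set F : Finset (G → ℂ) := R.biUnion fun C => (hB2 G (nrm C)).1.toFinset with hF
  have hFmem : ∀ C, IsRadical p C → ∀ ψ ∈ IrrOn (nrm C), ψ ∈ F := by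
    intro C hC ψ hψ
    rw [hF, Finset.mem_biUnion]
    exact ⟨C, (hmem C).2 hC, (Set.Finite.mem_toFinset _).2 hψ⟩
  -- the goal as a finite sum
  have hgoal : ∑ᶠ x ∈ {x : Finset (Subgroup G) × (G → ℂ) | IsPair p M χ x ∧ dfc p x = D ∧
      T ≤ Vx X x}, (wt x : ℂ) * KQ (U ⊓ Vx X x) (om (α x)) =
      ∑ x ∈ R ×ˢ F, if IsPair p M χ x ∧ dfc p x = D ∧ T ≤ Vx X x then
        (wt x : ℂ) * KQ (U ⊓ Vx X x) (om (α x)) else 0 := by
    rw [← Finset.sum_filter, ← finsum_mem_coe_finset]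
    refine finsum_mem_congr ?_ fun _ _ => rfl
    ext x
    rw [Finset.mem_coe, Finset.mem_filter, Finset.mem_product]
    constructor
    · intro hx
      exact ⟨⟨(hmem _).2 hx.1.1, hFmem _ hx.1.1 _ hx.1.2.1⟩, hx⟩
    · intro hx
      exact hx.2
  -- the relation as a finite sum
  have hRel : (0 : ℂ) = ∑ x ∈ R ×ˢ F, if IsPair p M χ x ∧
      ((resE X (T ⊔ U)).stab x.1 x.2).map (resE X (T ⊔ U)).proj ⊔ U.subgroupOf (T ⊔ U) = ⊤ then
        (-1) ^ (x.1.card + 1) *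
          ((relT (resE X (T ⊔ U)) p (U.subgroupOf (T ⊔ U)) x.1 x.2 D : ℤ) : ℂ) else 0 := by
    have h1 : ∑ᶠ C ∈ {C : Finset (Subgroup G) | IsRadical p C}, (-1) ^ (C.card + 1) *
        ∑ᶠ ψ ∈ {ψ : G → ℂ | ψ ∈ IrrOn (nrm C) ∧ Induces M ψ χ ∧
          ((resE X (T ⊔ U)).stab C ψ).map (resE X (T ⊔ U)).proj ⊔ U.subgroupOf (T ⊔ U) = ⊤},
          relT (resE X (T ⊔ U)) p (U.subgroupOf (T ⊔ U)) C ψ D =
        ∑ C ∈ R, ∑ ψ ∈ F, if IsPair p M χ (C, ψ) ∧
          ((resE X (T ⊔ U)).stab C ψ).map (resE X (T ⊔ U)).proj ⊔ U.subgroupOf (T ⊔ U) = ⊤ then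
            (-1) ^ (C.card + 1) * relT (resE X (T ⊔ U)) p (U.subgroupOf (T ⊔ U)) C ψ D else 0 := by
      have h2 : {C : Finset (Subgroup G) | IsRadical p C} = ↑R := by
        ext C
        rw [Finset.mem_coe, hmem]
        rfl
      rw [h2, finsum_mem_coe_finset]
      refine Finset.sum_congr rfl fun C hC => ?_
      have h3 : {ψ : G → ℂ | ψ ∈ IrrOn (nrm C) ∧ Induces M ψ χ ∧
          ((resE X (T ⊔ U)).stab C ψ).map (resE X (T ⊔ U)).proj ⊔ U.subgroupOf (T ⊔ U) = ⊤} =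
          ↑(F.filter fun ψ => IsPair p M χ (C, ψ) ∧
            ((resE X (T ⊔ U)).stab C ψ).map (resE X (T ⊔ U)).proj ⊔ U.subgroupOf (T ⊔ U) = ⊤) := by
        ext ψ
        rw [Finset.mem_coe, Finset.mem_filter]
        constructor
        · intro hx
          exact ⟨hFmem C ((hmem C).1 hC) ψ hx.1, ⟨(hmem C).1 hC, hx.1, hx.2.1⟩, hx.2.2⟩
        · intro hx
          exact ⟨hx.2.1.2.1, hx.2.1.2.2, hx.2.2⟩
      rw [h3, finsum_mem_coe_finset, Finset.mul_sum, Finset.sum_filter]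
    have h4 := hrel
    unfold DR.Rel at h4
    rw [h1] at h4
    have h5 := congrArg (Int.cast : ℤ → ℂ) h4
    rw [Int.cast_zero, Int.cast_sum] at h5
    refine h5.symm.trans ?_
    rw [Finset.sum_product]
    refine Finset.sum_congr rfl fun C _ => ?_
    rw [Int.cast_sum]
    refine Finset.sum_congr rfl fun ψ _ => ?_
    rw [apply_ite (Int.cast : ℤ → ℂ), Int.cast_zero]
    push_cast
    rfl
  refine hgoal.trans (Eq.trans ?_ hRel.symm)
  refine Finset.sum_congr rfl fun x _ => ?_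
  by_cases hx : IsPair p M χ x
  · have hsup := RLU_sup hc T U (Vx X x) hTU
    have hmap : ((resE X (T ⊔ U)).stab x.1 x.2).map (resE X (T ⊔ U)).proj =
        (Vx X x).subgroupOf (T ⊔ U) := RLU_map X (T ⊔ U) x.1 x.2
    rw [hmap]
    by_cases hT : T ≤ Vx X x
    · rw [if_pos (show IsPair p M χ x ∧
          (Vx X x).subgroupOf (T ⊔ U) ⊔ U.subgroupOf (T ⊔ U) = ⊤ from ⟨hx, hsup.2 hT⟩),
        RLU_term hRES hCNA hCN0 hOMA hRST hECD hB13 hB2 G E A X p M χ hc hpA T U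
          hTU D x (α x) (hα x hx) hx]
      by_cases hd : dfc p x = D
      · rw [if_pos (show IsPair p M χ x ∧ dfc p x = D ∧ T ≤ Vx X x from ⟨hx, hd, hT⟩), if_pos hd]
        unfold wt
        push_cast
        ring
      · rw [if_neg (fun h : IsPair p M χ x ∧ dfc p x = D ∧ T ≤ Vx X x => hd h.2.1), if_neg hd,
          mul_zero, mul_zero]
    · rw [if_neg (fun h : IsPair p M χ x ∧ dfc p x = D ∧ T ≤ Vx X x => hT h.2.2),
        if_neg (fun h : IsPair p M χ x ∧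
          (Vx X x).subgroupOf (T ⊔ U) ⊔ U.subgroupOf (T ⊔ U) = ⊤ => hT (hsup.1 h.2))]
  · rw [if_neg (fun h : IsPair p M χ x ∧ dfc p x = D ∧ T ≤ Vx X x => hx h.1),
      if_neg (fun h : IsPair p M χ x ∧
        ((resE X (T ⊔ U)).stab x.1 x.2).map (resE X (T ⊔ U)).proj ⊔ U.subgroupOf (T ⊔ U) = ⊤ =>
          hx h.1)]

end Pool.Agent.NQ
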